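import Mathlib

/-!
# The hyperbolic-plus-taxicab metric of the disk does not have non-positive curvature

At the point `x = (0, -1/2)` one compares the midpoints of the segments from `x` to
`(-t, t - 1/2)` and to `(t, t - 1/2)` for small `t > 0`.
-/

set_option autoImplicit false

namespace Pool.Agent.Results.MP_b19ca0_gt.NotNonPositive

open Set Real Filter Topology

/-- The Euclidean inner product of the plane. -/
def ip (x y : ℝ × ℝ) : ℝ := x.1 * y.1 + x.2 * y.2

/-- The open unit disk. -/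
def M : Set (ℝ × ℝ) := {x | ip x x < 1}

/-- The discriminant of the quadratic equation `|x + τ (y - x)|² = 1` for `τ`. -/
noncomputable def disc (x y : ℝ × ℝ) : ℝ :=
  ip x (y - x) ^ 2 - ip (y - x) (y - x) * (ip x x - 1)

/-- The smaller solution `τ` of `|x + τ (y - x)|² = 1`. -/
noncomputable def ta (x y : ℝ × ℝ) : ℝ := (-ip x (y - x) - √(disc x y)) / ip (y - x) (y - x)

/-- The larger solution `τ` of `|x + τ (y - x)|² = 1`. -/
noncomputable def tb (x y : ℝ × ℝ) : ℝ := (-ip x (y - x) + √(disc x y)) / ip (y - x) (y - x)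

open Classical in
/-- The Hilbert metric: `|log {x, y; a, b}|`, the cross-ratio being computed in the affine coordinate
`τ ↦ x + τ (y - x)` of the line through `x` and `y`, in which `x`, `y`, `a`, `b` have the
coordinates `0`, `1`, `ta x y`, `tb x y`. -/
noncomputable def h (x y : ℝ × ℝ) : ℝ :=
  if x = y then 0 else |log (((0 - ta x y) * (1 - tb x y)) / ((0 - tb x y) * (1 - ta x y)))|

/-- The taxicab metric. -/
def m (x y : ℝ × ℝ) : ℝ := |x.1 - y.1| + |x.2 - y.2|

/-- The metric `d = h + m`. -/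
noncomputable def d (x y : ℝ × ℝ) : ℝ := h x y + m x y

/-- `p` is the midpoint of the segment from `x` to `y`. -/
def IsMid (x y p : ℝ × ℝ) : Prop := p ∈ segment ℝ x y ∧ d x p = d p y

/-- Every point of the disk has a neighbourhood (a ball of the metric `d`) in which
`2 d(p, q) ≤ d(y, z)` for the midpoints `p` of `[x, y]` and `q` of `[x, z]`. -/
def NonPositiveCurvature : Prop := ∀ o ∈ M, ∃ ε > 0, ∀ x ∈ M, ∀ y ∈ M, ∀ z ∈ M,
  d o x < ε → d o y < ε → d o z < ε → ∀ p q, IsMid x y p → IsMid x z q → 2 * d p q ≤ d y z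

/-! ### The Hilbert metric on a line -/

lemma ip_self_pos {v : ℝ × ℝ} (hv : v ≠ 0) : 0 < ip v v := by
  unfold ip
  by_contra hle
  push Not at hle
  have h1 : v.1 = 0 := by nlinarith [mul_self_nonneg v.1, mul_self_nonneg v.2]
  have h2 : v.2 = 0 := by nlinarith [mul_self_nonneg v.1, mul_self_nonneg v.2]
  exact hv (Prod.ext h1 h2)

/-- The numbers `ta x y` and `tb x y` are the parameters of the points of the unit circle on the
line through `x` and `y`. -/
lemma mem_circle_iff {x y : ℝ × ℝ} (hxy : x ≠ y) (hx : x ∈ M) (τ : ℝ) :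
    ip (x + τ • (y - x)) (x + τ • (y - x)) = 1 ↔ τ = ta x y ∨ τ = tb x y := by
  have hv : 0 < ip (y - x) (y - x) := ip_self_pos (sub_ne_zero.2 hxy.symm)
  have hx' : ip x x < 1 := hx
  have hd : 0 ≤ disc x y := by
    unfold disc
    nlinarith [sq_nonneg (ip x (y - x))]
  have hs := Real.sq_sqrt hd
  set r := √(disc x y) with hr
  set V := ip (y - x) (y - x) with hV
  set B := ip x (y - x) with hB
  have h1 : ip (x + τ • (y - x)) (x + τ • (y - x)) = ip x x + 2 * τ * B + τ ^ 2 * V := by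
    simp only [hB, hV, ip, Prod.fst_add, Prod.snd_add, Prod.smul_fst, Prod.smul_snd, smul_eq_mul,
      Prod.fst_sub, Prod.snd_sub]
    ring
  have h2 : V * (ip x x + 2 * τ * B + τ ^ 2 * V - 1) = (τ * V + B + r) * (τ * V + B - r) := by
    have : disc x y = B ^ 2 - V * (ip x x - 1) := rfl
    rw [this] at hs
    linear_combination hs
  have h3 : τ = ta x y ↔ τ * V + B + r = 0 := by
    unfold ta
    rw [eq_div_iff hv.ne']
    constructor <;> intro h <;> linarith
  have h4 : τ = tb x y ↔ τ * V + B - r = 0 := by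
    unfold tb
    rw [eq_div_iff hv.ne']
    constructor <;> intro h <;> linarith
  rw [h1, h3, h4, ← mul_eq_zero, ← h2, mul_eq_zero, or_iff_right hv.ne', sub_eq_zero]

/-- The Hilbert distance of two points of a line `σ ↦ P + σ v` that meets the unit circle at the
parameters `α < β`. -/
lemma h_line (P v : ℝ × ℝ) (α β σ₁ σ₂ : ℝ) (hv : 0 < ip v v) (h1 : ip P P - 1 = ip v v * (α * β))
    (h2 : 2 * ip P v = -(ip v v * (α + β))) (hα : α < σ₁) (h12 : σ₁ < σ₂) (hβ : σ₂ < β) :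
    h (P + σ₁ • v) (P + σ₂ • v) =
      (log (σ₂ - α) - log (β - σ₂)) - (log (σ₁ - α) - log (β - σ₁)) := by
  have hσ : 0 < σ₂ - σ₁ := sub_pos.2 h12
  have e1 : (P + σ₂ • v) - (P + σ₁ • v) = (σ₂ - σ₁) • v := by
    rw [sub_smul]
    abel
  have hne : P + σ₁ • v ≠ P + σ₂ • v := by
    intro h
    have h0 : (σ₂ - σ₁) • v = 0 := by rw [← e1, h, sub_self]
    rcases smul_eq_zero.1 h0 with h0 | h0
    · exact hσ.ne' h0
    · rw [h0] at hv
      simp [ip] at hv
  set V := ip v v with hV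
  have e2 : ip ((σ₂ - σ₁) • v) ((σ₂ - σ₁) • v) = (σ₂ - σ₁) ^ 2 * V := by
    simp only [hV, ip, Prod.smul_fst, Prod.smul_snd, smul_eq_mul]
    ring
  have e3 : ip (P + σ₁ • v) ((σ₂ - σ₁) • v) = (σ₂ - σ₁) * (V * (2 * σ₁ - α - β) / 2) := by
    have : ip (P + σ₁ • v) ((σ₂ - σ₁) • v) = (σ₂ - σ₁) * (ip P v + σ₁ * V) := by
      simp only [hV, ip, Prod.fst_add, Prod.snd_add, Prod.smul_fst, Prod.smul_snd, smul_eq_mul]
      ring
    rw [this]
    linear_combination (σ₂ - σ₁) / 2 * h2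
  have e4 : ip (P + σ₁ • v) (P + σ₁ • v) - 1 = V * ((σ₁ - α) * (σ₁ - β)) := by
    have : ip (P + σ₁ • v) (P + σ₁ • v) = ip P P + 2 * σ₁ * ip P v + σ₁ ^ 2 * V := by
      simp only [hV, ip, Prod.fst_add, Prod.snd_add, Prod.smul_fst, Prod.smul_snd, smul_eq_mul]
      ring
    rw [this]
    linear_combination h1 + σ₁ * h2
  have e5 : disc (P + σ₁ • v) (P + σ₂ • v) = ((σ₂ - σ₁) * (V * (β - α) / 2)) ^ 2 := by
    rw [disc, e1, e2, e3, e4]
    ring
  have e6 : √(disc (P + σ₁ • v) (P + σ₂ • v)) = (σ₂ - σ₁) * (V * (β - α) / 2) := by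
    rw [e5]
    refine Real.sqrt_sq (mul_nonneg hσ.le ?_)
    have : 0 < β - α := by linarith
    positivity
  have e7 : ta (P + σ₁ • v) (P + σ₂ • v) = (α - σ₁) / (σ₂ - σ₁) := by
    rw [ta, e6, e1, e2, e3]
    field_simp
    ring
  have e8 : tb (P + σ₁ • v) (P + σ₂ • v) = (β - σ₁) / (σ₂ - σ₁) := by
    rw [tb, e6, e1, e2, e3]
    field_simp
    ring
  have a1 : 0 < σ₁ - α := by linarith
  have a2 : 0 < σ₂ - α := by linarith
  have a3 : 0 < β - σ₁ := by linarith
  have a4 : 0 < β - σ₂ := by linarith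
  rw [h, if_neg hne, e7, e8]
  have e9 : (0 - (α - σ₁) / (σ₂ - σ₁)) * (1 - (β - σ₁) / (σ₂ - σ₁)) /
      ((0 - (β - σ₁) / (σ₂ - σ₁)) * (1 - (α - σ₁) / (σ₂ - σ₁))) =
      ((σ₁ - α) * (β - σ₂)) / ((β - σ₁) * (σ₂ - α)) := by
    have b1 : 0 - (α - σ₁) / (σ₂ - σ₁) = (σ₁ - α) / (σ₂ - σ₁) := by ring
    have b2 : 1 - (β - σ₁) / (σ₂ - σ₁) = -((β - σ₂) / (σ₂ - σ₁)) := by
      field_simp
      ring
    have b3 : 1 - (α - σ₁) / (σ₂ - σ₁) = (σ₂ - α) / (σ₂ - σ₁) := by
      field_simp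
      ring
    have b4 : (σ₂ - σ₁) * (σ₂ - σ₁) ≠ 0 := (mul_pos hσ hσ).ne'
    rw [b1, b2, b3, zero_sub, mul_neg, neg_mul, neg_div_neg_eq, div_mul_div_comm,
      div_mul_div_comm, div_div_div_cancel_right₀ b4]
  rw [e9, log_div (mul_pos a1 a4).ne' (mul_pos a3 a2).ne', log_mul a1.ne' a4.ne',
    log_mul a3.ne' a2.ne', abs_of_nonpos]
  · ring
  · have c1 : log (σ₁ - α) ≤ log (σ₂ - α) := log_le_log a1 (by linarith)
    have c2 : log (β - σ₂) ≤ log (β - σ₁) := log_le_log a4 (by linarith)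
    linarith

/-! ### The functions `D` and `G` -/

/-- The smaller parameter. -/
noncomputable def a : ℝ := (1 - √7) / 4

/-- The larger parameter. -/
noncomputable def b : ℝ := (1 + √7) / 4

lemma sq7 : √7 * √7 = 7 := Real.mul_self_sqrt (by norm_num)

lemma sqrt7_bounds : 26 / 10 < √7 ∧ √7 < 27 / 10 := by
  have h1 := sq7
  have h2 := Real.sqrt_nonneg 7
  constructor <;> nlinarith

lemma a_lt : a < -1 / 4 := by
  have := sqrt7_bounds
  unfold a
  linarith

lemma lt_b : 1 / 4 < b := by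
  have := sqrt7_bounds
  unfold b
  linarith

/-- The distance from `x = (0, -1/2)` to `(± t, t - 1/2)`. -/
noncomputable def D (t : ℝ) : ℝ := 2 * t + ((log (t - a) - log (b - t)) - (log (0 - a) - log (b - 0)))

/-- Half of the length of the chord through `(± t, t - 1/2)`. -/
noncomputable def w (t : ℝ) : ℝ := √(3 / 4 + t - t ^ 2)

/-- The distance from `(-t, t - 1/2)` to `(t, t - 1/2)`. -/
noncomputable def G (t : ℝ) : ℝ := 2 * t + 2 * (log (w t + t) - log (w t - t))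

lemma w_sq {t : ℝ} (h0 : 0 ≤ t) (h1 : t ≤ 1 / 100) : w t ^ 2 = 3 / 4 + t - t ^ 2 :=
  Real.sq_sqrt (by nlinarith)

lemma w_pos {t : ℝ} (h0 : 0 ≤ t) (h1 : t ≤ 1 / 100) : 8 / 10 < w t := by
  have h2 := w_sq h0 h1
  have h3 : 0 ≤ w t := Real.sqrt_nonneg _
  nlinarith

/-- The derivative of `D`. -/
lemma hasDerivAt_D {t : ℝ} (h0 : 0 ≤ t) (h1 : t ≤ 1 / 100) :
    HasDerivAt D (2 + √7 / (3 / 4 + t - 2 * t ^ 2)) t := by
  have ha := a_lt
  have hb := lt_b
  have h2 : t - a ≠ 0 := by linarith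
  have h3 : b - t ≠ 0 := by linarith
  have h4 : HasDerivAt D (2 * 1 + ((1 / (t - a) - (-1) / (b - t)) - 0)) t := by
    unfold D
    refine ((hasDerivAt_id t).const_mul 2).add ((HasDerivAt.sub ?_ ?_).sub (hasDerivAt_const t _))
    · exact ((hasDerivAt_id t).sub_const a).log h2
    · exact ((hasDerivAt_id t).const_sub b).log h3
  convert h4 using 1
  have h5 : 3 / 4 + t - 2 * t ^ 2 = 2 * ((t - a) * (b - t)) := by
    have := sq7
    unfold a b
    linear_combination -(1 / 8) * this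
  have h6 : √7 = 2 * (b - a) := by
    unfold a b
    ring
  rw [h5, h6]
  field_simp
  ring

/-- The derivative of `G`. -/
lemma hasDerivAt_G {t : ℝ} (h0 : 0 ≤ t) (h1 : t ≤ 1 / 100) :
    HasDerivAt G (2 + (3 + 2 * t) / w t / (3 / 4 + t - 2 * t ^ 2)) t := by
  have hw := w_pos h0 h1
  have hw2 := w_sq h0 h1
  have hpos : (0 : ℝ) < 3 / 4 + t - t ^ 2 := by nlinarith
  have h2 : w t + t ≠ 0 := by linarith
  have h3 : w t - t ≠ 0 := by
    have : 0 < w t - t := by linarith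
    exact this.ne'
  have h4 : HasDerivAt w ((1 - 2 * t) / (2 * w t)) t := by
    have h5 : HasDerivAt (fun t : ℝ => 3 / 4 + t - t ^ 2) (0 + 1 - ((2 : ℕ) * t ^ (2 - 1) * 1)) t :=
      ((hasDerivAt_const t _).add (hasDerivAt_id t)).sub ((hasDerivAt_id t).pow 2)
    have h6 : HasDerivAt w ((0 + 1 - ((2 : ℕ) * t ^ (2 - 1) * 1)) / (2 * w t)) t :=
      h5.sqrt hpos.ne'
    convert h6 using 1
    norm_num
  have h5 : HasDerivAt G (2 * 1 + 2 * (((1 - 2 * t) / (2 * w t) + 1) / (w t + t) -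
      ((1 - 2 * t) / (2 * w t) - 1) / (w t - t))) t := by
    unfold G
    refine ((hasDerivAt_id t).const_mul 2).add (HasDerivAt.const_mul 2 (HasDerivAt.sub ?_ ?_))
    · exact (h4.add (hasDerivAt_id t)).log h2
    · exact (h4.sub (hasDerivAt_id t)).log h3
  convert h5 using 1
  have h6 : 3 / 4 + t - 2 * t ^ 2 = (w t + t) * (w t - t) := by
    linear_combination -hw2
  rw [h6]
  have h7 : w t ≠ 0 := by linarith
  field_simp
  linear_combination (-4) * hw2

/-- The key inequality. -/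
lemma key {s t : ℝ} (h0 : 0 ≤ s) (hst : s < t) (h1 : t ≤ 1 / 100) :
    (2 + (3 + 2 * t) / w t / (3 / 4 + t - 2 * t ^ 2)) * (2 + √7 / (3 / 4 + s - 2 * s ^ 2)) <
    (2 + (3 + 2 * s) / w s / (3 / 4 + s - 2 * s ^ 2)) * (2 + √7 / (3 / 4 + t - 2 * t ^ 2)) := by
  have hws := w_pos h0 (hst.le.trans h1)
  have hwt := w_pos (h0.trans hst.le) h1
  have hws2 := w_sq h0 (hst.le.trans h1)
  have hwt2 := w_sq (h0.trans hst.le) h1
  set K := (3 + 2 * s) / w s with hK
  set L := (3 + 2 * t) / w t with hL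
  have hKw : K * w s = 3 + 2 * s := by rw [hK]; field_simp
  have hLw : L * w t = 3 + 2 * t := by rw [hL]; field_simp
  have hK0 : 0 < K := by rw [hK]; positivity
  have hL0 : 0 < L := by
    rw [hL]
    have : 0 < t := by linarith
    positivity
  -- `K² w² = (3 + 2 s)²`
  have hK2 : (K ^ 2 - 12) * w s ^ 2 = 16 * s ^ 2 := by
    have : K ^ 2 * w s ^ 2 = (3 + 2 * s) ^ 2 := by rw [← hKw]; ring
    rw [sub_mul, this, hws2]
    ring
  have hL2 : (L ^ 2 - 12) * w t ^ 2 = 16 * t ^ 2 := by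
    have : L ^ 2 * w t ^ 2 = (3 + 2 * t) ^ 2 := by rw [← hLw]; ring
    rw [sub_mul, this, hwt2]
    ring
  have hK12 : 12 ≤ K ^ 2 := by
    by_contra hlt
    push Not at hlt
    have : (K ^ 2 - 12) * w s ^ 2 < 0 := mul_neg_of_neg_of_pos (by linarith) (by positivity)
    nlinarith [sq_nonneg s]
  have hL12 : 12 ≤ L ^ 2 := by
    by_contra hlt
    push Not at hlt
    have : (L ^ 2 - 12) * w t ^ 2 < 0 := mul_neg_of_neg_of_pos (by linarith) (by positivity)
    nlinarith [sq_nonneg t]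
  have hK3 : 34 / 10 < K := by nlinarith
  have hL3 : 34 / 10 < L := by nlinarith
  have hts : 0 ≤ (t - s) * (t + s) := mul_nonneg (by linarith) (by linarith)
  have hts' : 0 ≤ (t - s) * (1 - (t + s)) := mul_nonneg (by linarith) (by linarith)
  have hmono : w s ^ 2 ≤ w t ^ 2 := by
    rw [hws2, hwt2]
    linarith
  have hdiff : (L ^ 2 - K ^ 2) * (3 / 4) ≤ 16 * (t ^ 2 - s ^ 2) := by
    have c1 : (L ^ 2 - 12) * w s ^ 2 ≤ 16 * t ^ 2 := by
      rw [← hL2]
      exact mul_le_mul_of_nonneg_left hmono (by linarith)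
    have c2 : (L ^ 2 - K ^ 2) * w s ^ 2 ≤ 16 * (t ^ 2 - s ^ 2) := by
      have c0 : (L ^ 2 - K ^ 2) * w s ^ 2 = (L ^ 2 - 12) * w s ^ 2 - (K ^ 2 - 12) * w s ^ 2 := by
        ring
      rw [c0, hK2]
      linarith
    by_cases c3 : L ^ 2 ≤ K ^ 2
    · have c5 : (L ^ 2 - K ^ 2) * (3 / 4) ≤ 0 :=
        mul_nonpos_of_nonpos_of_nonneg (by linarith) (by norm_num)
      have c6 : t ^ 2 - s ^ 2 = (t - s) * (t + s) := by ring
      rw [c6]
      linarith
    · push Not at c3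
      have c4 : 3 / 4 ≤ w s ^ 2 := by
        rw [hws2]
        have : 0 ≤ s * (1 - s) := mul_nonneg h0 (by linarith)
        linarith
      exact (mul_le_mul_of_nonneg_left c4 (by linarith)).trans c2
  have hLK : L - K ≤ 1 / 10 * (t - s) := by
    have c1 : (L - K) * (L + K) * (3 / 4) ≤ 16 * ((t - s) * (t + s)) := by
      calc (L - K) * (L + K) * (3 / 4) = (L ^ 2 - K ^ 2) * (3 / 4) := by ring
        _ ≤ 16 * (t ^ 2 - s ^ 2) := hdiff
        _ = _ := by ring
    have c2 : (t - s) * (t + s) ≤ (t - s) * (2 / 100) :=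
      mul_le_mul_of_nonneg_left (by linarith) (by linarith)
    by_contra hlt
    push Not at hlt
    have c3 : 0 < L - K := lt_of_le_of_lt (by linarith) hlt
    have c4 : (L - K) * (68 / 10) ≤ (L - K) * (L + K) :=
      mul_le_mul_of_nonneg_left (by linarith) c3.le
    linarith
  obtain ⟨r1, r2⟩ := sqrt7_bounds
  have hs2 : 0 ≤ s * (1 / 100 - s) := mul_nonneg h0 (by linarith)
  have ht2 : 0 ≤ t * (1 / 100 - t) := mul_nonneg (by linarith) (by linarith)
  have hP0 : 0 < 3 / 4 + s - 2 * s ^ 2 := by linarith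
  have hQ0 : 0 < 3 / 4 + t - 2 * t ^ 2 := by linarith
  have hP1 : 3 / 4 + s - 2 * s ^ 2 ≤ 1 := by
    have := sq_nonneg s
    linarith
  have hPQ : 9 / 10 * (t - s) ≤ (3 / 4 + t - 2 * t ^ 2) - (3 / 4 + s - 2 * s ^ 2) := by
    have c2 : (t - s) * (t + s) ≤ (t - s) * (2 / 100) :=
      mul_le_mul_of_nonneg_left (by linarith) (by linarith)
    linarith
  generalize 3 / 4 + s - 2 * s ^ 2 = P at *
  generalize 3 / 4 + t - 2 * t ^ 2 = Q at *
  have main : (L - K) * (2 * P + √7) < 2 * (K - √7) * (Q - P) := by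
    have c1 : (L - K) * (2 * P + √7) ≤ 1 / 10 * (t - s) * (2 * P + √7) :=
      mul_le_mul_of_nonneg_right hLK (by linarith)
    have c2 : 1 / 10 * (t - s) * (2 * P + √7) ≤ 1 / 10 * (t - s) * 5 :=
      mul_le_mul_of_nonneg_left (by linarith) (by linarith)
    have c3 : 2 * (7 / 10) * (9 / 10 * (t - s)) ≤ 2 * (K - √7) * (Q - P) :=
      mul_le_mul (by linarith) hPQ (by linarith) (by linarith)
    have : 0 < t - s := by linarith
    linarith
  have e1 : (2 + L / Q) * (2 + √7 / P) = (2 * Q + L) * (2 * P + √7) / (P * Q) := by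
    field_simp
  have e2 : (2 + K / P) * (2 + √7 / Q) = (2 * P + K) * (2 * Q + √7) / (P * Q) := by
    field_simp
  rw [e1, e2]
  apply div_lt_div_of_pos_right _ (mul_pos hP0 hQ0)
  linarith

/-! ### Mean value theorem -/

lemma D_zero : D 0 = 0 := by
  unfold D
  ring

lemma G_zero : G 0 = 0 := by
  unfold G
  simp

lemma continuousOn_D : ContinuousOn D (Icc 0 (1 / 100)) := fun t ht =>
  (hasDerivAt_D ht.1 ht.2).continuousAt.continuousWithinAt

lemma continuousOn_G : ContinuousOn G (Icc 0 (1 / 100)) := fun t ht =>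
  (hasDerivAt_G ht.1 ht.2).continuousAt.continuousWithinAt

lemma D_strictMono : StrictMonoOn D (Icc 0 (1 / 100)) := by
  refine strictMonoOn_of_deriv_pos (convex_Icc _ _) continuousOn_D fun t ht => ?_
  rw [interior_Icc] at ht
  rw [(hasDerivAt_D ht.1.le ht.2.le).deriv]
  have h1 := Real.sqrt_nonneg 7
  have h2 : 0 < 3 / 4 + t - 2 * t ^ 2 := by nlinarith [ht.1, ht.2]
  positivity

/-- The crucial estimate: if `D t = 2 D s`, then `G t < 2 G s`. -/
lemma G_lt {s t : ℝ} (hs : 0 < s) (hst : s < t) (ht : t ≤ 1 / 100) (h : D t = 2 * D s) :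
    G t < 2 * G s := by
  have hsub1 : Icc 0 s ⊆ Icc (0 : ℝ) (1 / 100) := Icc_subset_Icc le_rfl (by linarith)
  have hsub2 : Icc s t ⊆ Icc (0 : ℝ) (1 / 100) := Icc_subset_Icc hs.le ht
  obtain ⟨c₁, hc₁, e₁⟩ := exists_ratio_hasDerivAt_eq_ratio_slope D
    (fun x => 2 + √7 / (3 / 4 + x - 2 * x ^ 2)) hs (continuousOn_D.mono hsub1)
    (fun x hx => hasDerivAt_D hx.1.le (by linarith [hx.2])) G
    (fun x => 2 + (3 + 2 * x) / w x / (3 / 4 + x - 2 * x ^ 2)) (continuousOn_G.mono hsub1)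
    (fun x hx => hasDerivAt_G hx.1.le (by linarith [hx.2]))
  obtain ⟨c₂, hc₂, e₂⟩ := exists_ratio_hasDerivAt_eq_ratio_slope D
    (fun x => 2 + √7 / (3 / 4 + x - 2 * x ^ 2)) hst (continuousOn_D.mono hsub2)
    (fun x hx => hasDerivAt_D (hs.le.trans hx.1.le) (by linarith [hx.2])) G
    (fun x => 2 + (3 + 2 * x) / w x / (3 / 4 + x - 2 * x ^ 2)) (continuousOn_G.mono hsub2)
    (fun x hx => hasDerivAt_G (hs.le.trans hx.1.le) (by linarith [hx.2]))
  have hk := key hc₁.1.le (hc₁.2.trans hc₂.1) (hc₂.2.le.trans ht)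
  simp only [D_zero, G_zero, sub_zero] at e₁ e₂
  have hD : 0 < D s := by
    have := D_strictMono (left_mem_Icc.2 (by norm_num)) ⟨hs.le, by linarith⟩ hs
    rwa [D_zero] at this
  have h1 : D t - D s = D s := by linarith
  rw [h1] at e₂
  -- `G(s) D'(c₁) = D(s) G'(c₁)`, `(G(t) - G(s)) D'(c₂) = D(s) G'(c₂)`
  have hpos : ∀ c : ℝ, 0 < c → c < 1 / 100 → 0 < 2 + √7 / (3 / 4 + c - 2 * c ^ 2) := by
    intro c hc hc'
    have h2 : 0 < 3 / 4 + c - 2 * c ^ 2 := by nlinarith
    have h1 := Real.sqrt_nonneg 7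
    positivity
  have p1 := hpos c₁ hc₁.1 (by linarith [hc₁.2])
  have p2 := hpos c₂ (hs.trans hc₂.1) (by linarith [hc₂.2])
  generalize 2 + √7 / (3 / 4 + c₁ - 2 * c₁ ^ 2) = A₁ at *
  generalize 2 + √7 / (3 / 4 + c₂ - 2 * c₂ ^ 2) = A₂ at *
  generalize 2 + (3 + 2 * c₁) / w c₁ / (3 / 4 + c₁ - 2 * c₁ ^ 2) = B₁ at *
  generalize 2 + (3 + 2 * c₂) / w c₂ / (3 / 4 + c₂ - 2 * c₂ ^ 2) = B₂ at *
  by_contra hcon
  push Not at hcon
  have h2 : G s ≤ G t - G s := by linarith
  have h3 : G s * A₁ * A₂ ≤ (G t - G s) * A₂ * A₁ := by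
    have := mul_le_mul_of_nonneg_right h2 (mul_pos p1 p2).le
    linarith
  have h4 : D s * (B₁ * A₂) ≤ D s * (B₂ * A₁) := by
    calc D s * (B₁ * A₂) = (D s * B₁) * A₂ := by ring
      _ = G s * A₁ * A₂ := by linear_combination (-A₂) * e₁
      _ ≤ (G t - G s) * A₂ * A₁ := h3
      _ = (D s * B₂) * A₁ := by linear_combination A₁ * e₂
      _ = _ := by ring
  have h5 := le_of_mul_le_mul_left h4 hD
  linarith

/-! ### The points -/

/-- The point `(0, -1/2)`. -/
noncomputable def o : ℝ × ℝ := (0, -1 / 2)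

lemma dist_line {e : ℝ} (he : e = 1 ∨ e = -1) {σ₁ σ₂ : ℝ} (h0 : 0 ≤ σ₁) (h12 : σ₁ < σ₂)
    (h1 : σ₂ ≤ 1 / 100) : d (o + σ₁ • (e, 1)) (o + σ₂ • (e, 1)) = D σ₂ - D σ₁ := by
  have ha := a_lt
  have hb := lt_b
  have h7 := sq7
  have he2 : e * e = 1 := by rcases he with rfl | rfl <;> norm_num
  have h2 : h (o + σ₁ • (e, 1)) (o + σ₂ • (e, 1)) =
      (log (σ₂ - a) - log (b - σ₂)) - (log (σ₁ - a) - log (b - σ₁)) := by
    refine h_line o (e, 1) a b σ₁ σ₂ ?_ ?_ ?_ (by linarith) h12 (by linarith)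
    · simp only [ip]
      rw [he2]
      norm_num
    · simp only [ip, o, a, b]
      rw [he2]
      linear_combination (1 / 8) * h7
    · simp only [ip, o, a, b]
      rw [he2]
      ring
  have h3 : m (o + σ₁ • (e, 1)) (o + σ₂ • (e, 1)) = 2 * (σ₂ - σ₁) := by
    simp only [m, o, Prod.fst_add, Prod.snd_add, Prod.smul_fst, Prod.smul_snd, smul_eq_mul]
    have e1 : |0 + σ₁ * e - (0 + σ₂ * e)| = σ₂ - σ₁ := by
      have : 0 + σ₁ * e - (0 + σ₂ * e) = -((σ₂ - σ₁) * e) := by ring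
      rw [this, abs_neg, abs_mul, abs_of_pos (sub_pos.2 h12)]
      rcases he with rfl | rfl <;> simp
    have e2 : |-1 / 2 + σ₁ * 1 - (-1 / 2 + σ₂ * 1)| = σ₂ - σ₁ := by
      have : -1 / 2 + σ₁ * 1 - (-1 / 2 + σ₂ * 1) = -(σ₂ - σ₁) := by ring
      rw [this, abs_neg, abs_of_pos (sub_pos.2 h12)]
    rw [e1, e2]
    ring
  rw [d, h2, h3, D, D]
  ring

lemma dist_horizontal {t : ℝ} (h0 : 0 < t) (h1 : t ≤ 1 / 100) :
    d (o + t • (-1, 1)) (o + t • (1, 1)) = G t := by
  have hw := w_pos h0.le h1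
  have hw2 := w_sq h0.le h1
  have e1 : o + t • ((-1, 1) : ℝ × ℝ) = (0, t - 1 / 2) + (-t) • ((1, 0) : ℝ × ℝ) := by
    ext <;> simp [o]
    ring
  have e2 : o + t • ((1, 1) : ℝ × ℝ) = (0, t - 1 / 2) + t • ((1, 0) : ℝ × ℝ) := by
    ext <;> simp [o]
    ring
  have h2 : h (o + t • (-1, 1)) (o + t • (1, 1)) =
      (log (t - (-w t)) - log (w t - t)) - (log (-t - (-w t)) - log (w t - (-t))) := by
    rw [e1, e2]
    refine h_line (0, t - 1 / 2) (1, 0) (-w t) (w t) (-t) t ?_ ?_ ?_ (by linarith) (by linarith)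
      (by linarith)
    · simp [ip]
    · simp only [ip]
      linear_combination hw2
    · simp [ip]
  have h3 : m (o + t • (-1, 1)) (o + t • (1, 1)) = 2 * t := by
    simp only [m, o, Prod.fst_add, Prod.snd_add, Prod.smul_fst, Prod.smul_snd, smul_eq_mul]
    have e3 : 0 + t * -1 - (0 + t * 1) = -(2 * t) := by ring
    rw [e3, abs_neg, abs_of_pos (by linarith), sub_self, abs_zero, add_zero]
  have e4 : t - -w t = w t + t := by ring
  have e5 : -t - -w t = w t - t := by ring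
  have e6 : w t - -t = w t + t := by ring
  rw [d, h2, h3, G, e4, e5, e6]
  ring

lemma mem_M {e t : ℝ} (he : e = 1 ∨ e = -1) (h0 : 0 ≤ t) (h1 : t ≤ 1 / 100) :
    o + t • (e, 1) ∈ M := by
  change ip _ _ < 1
  simp only [ip, o, Prod.fst_add, Prod.snd_add, Prod.smul_fst, Prod.smul_snd, smul_eq_mul]
  have : 0 ≤ t * (1 / 100 - t) := mul_nonneg h0 (by linarith)
  rcases he with rfl | rfl <;> linarith

lemma isMid {e s t : ℝ} (he : e = 1 ∨ e = -1) (hs : 0 < s) (hst : s < t) (h1 : t ≤ 1 / 100)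
    (h : D t = 2 * D s) : IsMid o (o + t • (e, 1)) (o + s • (e, 1)) := by
  have ht : 0 < t := hs.trans hst
  constructor
  · refine ⟨1 - s / t, s / t, ?_, by positivity, by ring, ?_⟩
    · rw [sub_nonneg, div_le_one ht]
      exact hst.le
    · rw [smul_add, smul_smul, div_mul_cancel₀ _ ht.ne', ← add_assoc, ← add_smul]
      simp
  · have e1 : d o (o + s • (e, 1)) = D s := by
      have := dist_line he le_rfl hs (hst.le.trans h1)
      rw [zero_smul, add_zero, D_zero, sub_zero] at this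
      exact this
    rw [e1, dist_line he hs.le hst h1]
    linarith

/-- The disk with the sum of the Hilbert metric and the taxicab metric does not have non-positive
curvature in the sense of Busemann.  The first part of the statement confirms that `ta x y` and
`tb x y` are the coordinates of the two points of the unit circle on the line through `x`, `y`. -/
theorem result :
    (∀ x ∈ M, ∀ y ∈ M, x ≠ y → ta x y < tb x y ∧
      ∀ τ : ℝ, ip (x + τ • (y - x)) (x + τ • (y - x)) = 1 ↔ τ = ta x y ∨ τ = tb x y) ∧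
    ¬ NonPositiveCurvature := by
  refine ⟨fun x hx y _ hxy => ⟨?_, mem_circle_iff hxy hx⟩, fun hcurv => ?_⟩
  · have hv : 0 < ip (y - x) (y - x) := ip_self_pos (sub_ne_zero.2 hxy.symm)
    have hx' : ip x x < 1 := hx
    have hd : 0 < disc x y := by
      unfold disc
      have := mul_pos hv (sub_pos.2 hx')
      linarith [sq_nonneg (ip x (y - x))]
    have := Real.sqrt_pos.2 hd
    unfold ta tb
    apply div_lt_div_of_pos_right _ hv
    linarith
  · have ho : o ∈ M := by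
      change ip o o < 1
      norm_num [ip, o]
    obtain ⟨ε, hε, hcurv⟩ := hcurv o ho
    -- choose `t`
    have hcont : ContinuousAt D 0 := (hasDerivAt_D le_rfl (by norm_num)).continuousAt
    have h1 : ∀ᶠ t in 𝓝 (0 : ℝ), D t < ε := hcont.eventually_lt continuousAt_const (by rwa [D_zero])
    have h2 : ∀ᶠ t in 𝓝[>] (0 : ℝ), t ∈ Ioo (0 : ℝ) (1 / 100) := Ioo_mem_nhdsGT (by norm_num)
    obtain ⟨t, ht1, ht0, ht2⟩ := ((h1.filter_mono nhdsWithin_le_nhds).and h2).exists
    have hDt : 0 < D t := by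
      have := D_strictMono (left_mem_Icc.2 (by norm_num)) ⟨ht0.le, ht2.le⟩ ht0
      rwa [D_zero] at this
    -- choose `s`
    obtain ⟨s, ⟨hs0, hs1⟩, hs⟩ : D t / 2 ∈ D '' Icc 0 t :=
      intermediate_value_Icc ht0.le (continuousOn_D.mono (Icc_subset_Icc le_rfl ht2.le))
        ⟨by rw [D_zero]; linarith, by linarith⟩
    have hs0' : 0 < s := by
      rcases hs0.eq_or_lt with h | h
      · rw [← h, D_zero] at hs
        linarith
      · exact h
    have hs1' : s < t := by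
      rcases hs1.eq_or_lt with h | h
      · rw [h] at hs
        linarith
      · exact h
    have hD : D t = 2 * D s := by linarith
    have hlt := G_lt hs0' hs1' ht2.le hD
    have d1 : ∀ e : ℝ, e = 1 ∨ e = -1 → d o (o + t • (e, 1)) < ε := by
      intro e he
      have := dist_line he le_rfl ht0 ht2.le
      rw [zero_smul, add_zero, D_zero, sub_zero] at this
      rwa [this]
    have d0 : d o o < ε := by
      have : d o o = 0 := by simp [d, h, m]
      rwa [this]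
    have := hcurv o ho (o + t • (-1, 1)) (mem_M (Or.inr rfl) ht0.le ht2.le) (o + t • (1, 1))
      (mem_M (Or.inl rfl) ht0.le ht2.le) d0 (d1 _ (Or.inr rfl)) (d1 _ (Or.inl rfl)) _ _
      (isMid (Or.inr rfl) hs0' hs1' ht2.le hD) (isMid (Or.inl rfl) hs0' hs1' ht2.le hD)
    rw [dist_horizontal hs0' (hs1'.le.trans ht2.le), dist_horizontal ht0 ht2.le] at this
    linarith

end Pool.Agent.Results.MP_b19ca0_gt.NotNonPositive
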